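import Pool.Agent.Work.MP_e37829_mp.A.Grp

namespace Pool.Agent.Results.MP_e37829_mp.PureAC
open MeasureTheory

/-- the Schroedinger operator with potential `V`, acting on sequences -/
def Schr (V : ℤ → ℝ) (ψ : ℤ → ℂ) : ℤ → ℂ := fun n => ψ (n + 1) + ψ (n - 1) + (V n : ℂ) * ψ n

/-- `ψ` is square summable and `μ` is its spectral measure: a finite Borel measure on the line
whose moments are the numbers `⟨ψ, H^k ψ⟩`. -/
def IsSpec (V : ℤ → ℝ) (ψ : ℤ → ℂ) (μ : Measure ℝ) : Prop :=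
  Summable (fun n => ‖ψ n‖ ^ 2) ∧ IsFiniteMeasure μ ∧
    ∀ k : ℕ, Integrable (fun x : ℝ => x ^ k) μ ∧
      (∑' n : ℤ, star (ψ n) * (Schr V)^[k] ψ n) = ((∫ x, x ^ k ∂μ : ℝ) : ℂ)

/-- `E` is an eigenvalue, with a square summable eigenvector -/
def IsEig (V : ℤ → ℝ) (E : ℝ) : Prop :=
  ∃ ψ : ℤ → ℂ, Summable (fun n => ‖ψ n‖ ^ 2) ∧ ψ ≠ 0 ∧ ∀ n, Schr V ψ n = (E : ℂ) * ψ n

/-- some vector has a nonzero absolutely continuous spectral measure -/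
def HasAC (V : ℤ → ℝ) : Prop :=
  ∃ ψ μ, IsSpec V ψ μ ∧ μ ≠ 0 ∧ μ.AbsolutelyContinuous volume

/-- some vector has a nonzero singular spectral measure without atoms -/
def HasSC (V : ℤ → ℝ) : Prop :=
  ∃ ψ μ, IsSpec V ψ μ ∧ μ ≠ 0 ∧ μ.MutuallySingular volume ∧ ∀ x : ℝ, μ {x} = 0

/-- every spectral measure is absolutely continuous -/
def IsPureAC (V : ℤ → ℝ) : Prop := ∀ ψ μ, IsSpec V ψ μ → μ.AbsolutelyContinuous volume

open Pool.Agent.Work.MP_e37829_mp in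
lemma mem_iff (ψ : ℤ → ℂ) : Memℓp ψ 2 ↔ Summable (fun n => ‖ψ n‖ ^ 2) := by
  rw [memℓp_gen_iff (by simp)]; simp

open Pool.Agent.Work.MP_e37829_mp in
lemma spec_iff {V : ℤ → ℝ} {H : A.L2 →L[ℂ] A.L2} (h : A.IsOp V H) (ψ : A.L2) (μ : Measure ℝ) :
    IsSpec V ψ μ ↔ A.IsSpec H ψ μ := by
  have e : ∀ k : ℕ, (Schr V)^[k] ψ = ⇑((⇑H)^[k] ψ) := by
    intro k
    induction k with
    | zero => rfl
    | succ k ih =>
      rw [Function.iterate_succ_apply', Function.iterate_succ_apply', ih]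
      funext n; exact (h _ n).symm
  simp only [IsSpec, A.IsSpec, e, (mem_iff ψ).mp (lp.memℓp ψ), true_and]

open Pool.Agent.Work.MP_e37829_mp in
lemma eig_iff {V : ℤ → ℝ} {H : A.L2 →L[ℂ] A.L2} (h : A.IsOp V H) (E : ℝ) :
    IsEig V E ↔ ∃ ψ : A.L2, ψ ≠ 0 ∧ H ψ = (E : ℂ) • ψ := by
  constructor
  · rintro ⟨ψ, h1, h2, h3⟩
    refine ⟨⟨ψ, (mem_iff ψ).mpr h1⟩, fun h0 => h2 (congrArg Subtype.val h0), ?_⟩
    ext n
    rw [h, lp.coeFn_smul, Pi.smul_apply, smul_eq_mul]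
    exact h3 n
  · rintro ⟨ψ, h2, h3⟩
    refine ⟨ψ, (mem_iff ψ).mp (lp.memℓp ψ), fun h0 => h2 (lp.ext h0), fun n => ?_⟩
    rw [Schr, ← h ψ n, h3, lp.coeFn_smul, Pi.smul_apply, smul_eq_mul]

/-- For every Cantor group and minimal translation there is a dense set of sampling functions such
that every operator of the hull has absolutely continuous spectrum, no singular continuous
spectrum and finitely many eigenvalues; it has an eigenvalue exactly on the orbit of zero, and it is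
purely absolutely continuous exactly off that orbit, which is not the whole group. -/
theorem result (Ω : Type) [TopologicalSpace Ω] [AddCommGroup Ω] [IsTopologicalAddGroup Ω]
    [CompactSpace Ω] [T2Space Ω] [TopologicalSpace.MetrizableSpace Ω]
    [TotallyDisconnectedSpace Ω] (hiso : ∀ x : Ω, ¬ IsOpen ({x} : Set Ω))
    (α : Ω) (hα : Dense (Set.range (fun n : ℤ => n • α))) :
    (∃ ω : Ω, ω ∉ Set.range (fun n : ℤ => n • α)) ∧
    Dense {f : C(Ω, ℝ) | ∀ (ω : Ω) (V : ℤ → ℝ), (∀ n, V n = f (n • α + ω)) →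
      HasAC V ∧ ¬ HasSC V ∧ {E : ℝ | IsEig V E}.Finite ∧
        ((∃ E, IsEig V E) ↔ ω ∈ Set.range (fun n : ℤ => n • α)) ∧
        (IsPureAC V ↔ ω ∉ Set.range (fun n : ℤ => n • α))} := by
  refine ⟨Pool.Agent.Work.MP_e37829_mp.A.off_orbit hiso α,
    (Pool.Agent.Work.MP_e37829_mp.A.main hiso α hα).mono ?_⟩
  rintro f ⟨H, h1, h2⟩ ω V hV
  obtain rfl : V = fun n => f (n • α + ω) := funext hV
  obtain ⟨⟨ψ, μ, a0, a1⟩, a2, a3, a4, a5⟩ := h2 ω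
  refine ⟨⟨ψ, μ, (spec_iff (h1 ω) ψ μ).mpr a0, a1⟩, ?_, ?_, Iff.trans ?_ a3, Iff.trans ?_ a5⟩
  · rintro ⟨φ, ν, b1, b2⟩
    exact a2 ⟨⟨φ, (mem_iff φ).mpr b1.1⟩, ν, (spec_iff (h1 ω) _ ν).mp b1, b2⟩
  · simpa only [eig_iff (h1 ω)] using a4
  · simp only [eig_iff (h1 ω)]
    exact ⟨fun ⟨E, ψ, b1, b2⟩ => ⟨ψ, b1, E, b2⟩, fun ⟨ψ, b1, E, b2⟩ => ⟨E, ψ, b1, b2⟩⟩
  · exact ⟨fun b φ ν c => b φ ν ((spec_iff (h1 ω) φ ν).mpr c),
      fun b φ ν c => b ⟨φ, (mem_iff φ).mpr c.1⟩ ν ((spec_iff (h1 ω) _ ν).mp c)⟩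

end Pool.Agent.Results.MP_e37829_mp.PureAC
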